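import Pool.Agent.H77.PUC.StmtsE

/-!
# DLM: locally approximable functions on a disc are close to polynomials
-/

universe u

namespace PUC

open Polynomial Filter Topology Metric

theorem DLM_tri {K : Type u} [NontriviallyNormedField K] [IsUltrametricDist K] {a b c : K} {r : ℝ}
    (h1 : a ∈ closedBall b r) (h2 : b ∈ closedBall c r) : a ∈ closedBall c r := by
  rw [mem_closedBall] at *
  exact (dist_triangle_max _ _ _).trans (max_le h1 h2)

theorem DLM_apx {K : Type u} [NontriviallyNormedField K] [IsUltrametricDist K] [IsAlgClosed K]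
    (hRng : SRng.{u}) {H : K → K} {η : ℝ} (hη : 0 < η) {c : K} {r : ℝ} (hr : 0 < r)
    {b : RatFunc K} (hb : Apx H η (closedBall c r) b) : PolyApx H η (closedBall c r) := by
  obtain ⟨Q, hQ⟩ := hRng K b c r η hr hη fun a ha => (hb a ha).1
  refine ⟨Q, fun a ha => ?_⟩
  have e : H a - Q.eval a = (H a - ev a b) + (ev a b - Q.eval a) := by ring
  rw [e]
  exact (IsUltrametricDist.norm_add_le_max _ _).trans (max_le (hb a ha).2 (hQ a ha))

theorem DLM_mono {K : Type u} [NontriviallyNormedField K] {H : K → K} {η : ℝ} {W W' : Set K}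
    (h : W ⊆ W') (hW : PolyApx H η W') : PolyApx H η W := by
  obtain ⟨Q, hQ⟩ := hW
  exact ⟨Q, fun a ha => hQ a (h ha)⟩

theorem sDlm (hGlb : SGlb.{u}) (hRng : SRng.{u}) : SDlm.{u} := by
  intro K _ _ _ _ H η c0 R hη hR hloc hpt hnest
  by_contra hbad0
  let Bad : K × ℝ → Prop := fun x =>
    0 < x.2 ∧ x.2 ≤ R ∧ x.1 ∈ closedBall c0 R ∧ ¬ PolyApx H η (closedBall x.1 x.2)
  have hB0 : Bad (c0, R) := ⟨hR, le_rfl, mem_closedBall_self hR.le, hbad0⟩
  let V : K × ℝ → Set ℝ := fun x =>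
    {r' | ∃ c', Bad (c', r') ∧ r' ≤ x.2 ∧ c' ∈ closedBall x.1 x.2}
  have hVb : ∀ x, BddBelow (V x) := by
    intro x
    refine ⟨0, ?_⟩
    rintro r' ⟨c', hc', -, -⟩
    exact hc'.1.le
  have step : ∀ (x : {x // Bad x}) (n : ℕ), ∃ y : {y // Bad y},
      y.1.2 ≤ x.1.2 ∧ y.1.1 ∈ closedBall x.1.1 x.1.2 ∧ y.1.2 < sInf (V x.1) + 1 / ((n : ℝ) + 1) := by
    intro x n
    have hne : (V x.1).Nonempty := ⟨x.1.2, x.1.1, x.2, le_rfl, mem_closedBall_self x.2.1.le⟩
    have hlt : sInf (V x.1) < sInf (V x.1) + 1 / ((n : ℝ) + 1) := by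
      have : (0 : ℝ) < 1 / ((n : ℝ) + 1) := by positivity
      linarith
    obtain ⟨r', ⟨c', h1, h2, h3⟩, h4⟩ := exists_lt_of_csInf_lt hne hlt
    exact ⟨⟨(c', r'), h1⟩, h2, h3, h4⟩
  choose g hg1 hg2 hg3 using step
  let x : ℕ → {x // Bad x} := fun n => Nat.rec ⟨(c0, R), hB0⟩ (fun n y => g y n) n
  have hx : ∀ n, x (n + 1) = g (x n) n := fun n => rfl
  have hr1 : ∀ n, (x (n + 1)).1.2 ≤ (x n).1.2 := fun n => by rw [hx]; exact hg1 _ _
  have hc1 : ∀ n, (x (n + 1)).1.1 ∈ closedBall (x n).1.1 (x n).1.2 := fun n => by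
    rw [hx]; exact hg2 _ _
  have hanti : Antitone fun n => (x n).1.2 := antitone_nat_of_succ_le hr1
  have hbdd : BddBelow (Set.range fun n => (x n).1.2) := by
    refine ⟨0, ?_⟩
    rintro _ ⟨n, rfl⟩
    exact (x n).2.1.le
  set rI : ℝ := ⨅ n, (x n).1.2 with hrI
  have hrIle : ∀ n, rI ≤ (x n).1.2 := fun n => ciInf_le hbdd n
  have hlim : Tendsto (fun n => (x n).1.2) atTop (𝓝 rI) := tendsto_atTop_ciInf hanti hbdd
  by_cases hI : (⋂ n, closedBall (x n).1.1 (x n).1.2) = ∅
  · obtain ⟨n, b, hb⟩ := hnest (fun n => (x n).1.1) (fun n => (x n).1.2) (fun n => (x n).2.1)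
      (fun n => (x n).2.2.2.1) (fun n => (x n).2.2.1) hanti hc1 hI
    exact (x n).2.2.2.2 (DLM_apx hRng hη (x n).2.1 hb)
  · obtain ⟨c, hc⟩ := Set.nonempty_iff_ne_empty.2 hI
    rw [Set.mem_iInter] at hc
    have hball : ∀ n, closedBall (x n).1.1 (x n).1.2 ⊆ closedBall c (x n).1.2 := by
      intro n a ha
      exact DLM_tri ha (mem_closedBall_comm.1 (hc n))
    have hcR : c ∈ closedBall c0 R := hc 0
    have hrI0 : 0 ≤ rI := le_ciInf fun n => (x n).2.1.le
    rcases hrI0.eq_or_lt with h0 | h0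
    · obtain ⟨r, b, hr, hb⟩ := hpt c hcR
      have hev : ∀ᶠ n in atTop, (x n).1.2 < r := by
        apply hlim.eventually_lt_const
        rw [← h0]; exact hr
      obtain ⟨n, hn⟩ := hev.exists
      apply (x n).2.2.2.2
      exact DLM_mono ((hball n).trans (closedBall_subset_closedBall hn.le)) (DLM_apx hRng hη hr hb)
    · obtain ⟨S, ρ, r', b, hS, hρ, hρr, hr', hb⟩ := hloc c hcR rI h0 ((hrIle 0).trans le_rfl)
      have hev : ∀ᶠ n in atTop, (x n).1.2 < r' := hlim.eventually_lt_const hr'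
      obtain ⟨n, hn⟩ := hev.exists
      apply (x n).2.2.2.2
      refine DLM_mono (hball n) ?_
      refine hGlb K H η c (x n).1.2 ρ S b hη hρ (hρr.trans_le (hrIle n)) ?_ ?_ ?_
      · intro s hs
        exact closedBall_subset_closedBall (hrIle n) (hS s hs)
      · intro a ha
        apply hb a
        refine ⟨?_, ha.1.trans hn.le, ha.2⟩
        have h1 : a ∈ closedBall c (x n).1.2 := by
          rw [mem_closedBall, dist_eq_norm]; exact ha.1
        have h2 : a ∈ closedBall c R := closedBall_subset_closedBall (x n).2.2.1 h1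
        have h3 := DLM_tri h2 hcR
        rwa [mem_closedBall, dist_eq_norm] at h3
      · intro s hs
        refine ⟨(ρ + rI) / 2, by linarith, ?_⟩
        by_contra hP
        have hsc : ∀ k, s ∈ closedBall (x k).1.1 (x k).1.2 := fun k =>
          DLM_tri (closedBall_subset_closedBall (hrIle k) (hS s hs)) (hc k)
        have hBs : Bad (s, (ρ + rI) / 2) := by
          refine ⟨by show 0 < (ρ + rI) / 2; linarith, ?_, hsc 0, hP⟩
          have := hrIle 0
          show (ρ + rI) / 2 ≤ R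
          have h5 : (x 0).1.2 = R := rfl
          linarith
        have hle : ∀ k : ℕ, rI ≤ (ρ + rI) / 2 + 1 / ((k : ℝ) + 1) := by
          intro k
          have h6 : sInf (V (x k).1) ≤ (ρ + rI) / 2 := by
            apply csInf_le (hVb _)
            refine ⟨s, hBs, ?_, hsc k⟩
            have := hrIle k
            linarith
          have h7 := hg3 (x k) k
          rw [← hx] at h7
          have h8 := hrIle (k + 1)
          linarith
        have hlim2 : Tendsto (fun k : ℕ => (ρ + rI) / 2 + 1 / ((k : ℝ) + 1)) atTop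
            (𝓝 ((ρ + rI) / 2 + 0)) :=
          tendsto_const_nhds.add tendsto_one_div_add_atTop_nhds_zero_nat
        have := ge_of_tendsto' hlim2 hle
        linarith

end PUC
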