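import Pool.Agent.H77.PUC.Util

/-!
# LZE: an approximately analytic function with a zero is small
-/

universe u

namespace PUC

open Polynomial Filter Topology Metric

theorem LZE_add {K : Type u} [NontriviallyNormedField K] [IsUltrametricDist K] {a b : K} {r : ℝ}
    (h1 : ‖a - b‖ ≤ r) (h2 : ‖b‖ ≤ r) : ‖a‖ ≤ r := by
  have e : a = (a - b) + b := by ring
  rw [e]
  exact (IsUltrametricDist.norm_add_le_max _ _).trans (max_le h1 h2)

theorem LZE_eq {K : Type u} [NontriviallyNormedField K] [IsUltrametricDist K] {a b : K} {r : ℝ}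
    (h1 : ‖a - b‖ ≤ r) (h2 : r < ‖b‖) : ‖a‖ = ‖b‖ := by
  have h3 : ‖a - b‖ < ‖b‖ := lt_of_le_of_lt h1 h2
  have e : a = (a - b) + b := by ring
  rw [e, IsUltrametricDist.norm_add_eq_max_of_norm_ne_norm h3.ne, max_eq_right h3.le]

theorem sLze (hNrm : SNrm.{u}) (hCon : SCon.{u}) : SLze.{u} := by
  classical
  intro K Ω _ _ _ _ _ _ _ _ _ _ _ p hp hp1 G η M0 hη hM0 hG hQ
  obtain ⟨Q, hQ⟩ := hQ
  have hp0 : 0 < ‖(p : K)‖ := norm_pos_iff.2 (Nat.cast_ne_zero.2 hp.ne_zero)
  set C : ℝ := ‖(p : K)‖⁻¹ ^ 3 with hC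
  have hC1 : 1 ≤ C := one_le_pow₀ (by rw [one_le_inv₀ hp0]; exact hp1.le)
  set M : ℝ := sSup (Set.range fun P => ‖G P‖) with hM
  have hbdd : BddAbove (Set.range fun P => ‖G P‖) := by
    refine ⟨M0, ?_⟩
    rintro _ ⟨P, rfl⟩
    exact hM0 P
  have hGM : ∀ P, ‖G P‖ ≤ M := fun P => le_csSup hbdd ⟨P, rfl⟩
  suffices hMC : M ≤ C * η from fun P => (hGM P).trans hMC
  by_contra hlt
  push Not at hlt
  have hηM : η ≤ M := by nlinarith
  have hMpos : 0 < M := by linarith
  obtain ⟨n, c, hn, hc⟩ := hNrm K Ω p hp hp1 G η M hη hηM hGM hG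
  obtain ⟨η1, hη10, hη1⟩ : ∃ η1 : ℝ, 0 ≤ η1 ∧ η1 ^ n = C * η * M ^ (n - 1) := by
    refine ⟨(C * η * M ^ (n - 1)) ^ ((n : ℝ)⁻¹), by positivity, ?_⟩
    exact Real.rpow_inv_natCast_pow (by positivity) hn.ne'
  have hMn : M ^ n = M * M ^ (n - 1) := by
    rw [← pow_succ']; congr 1; omega
  have hηn : η ^ n = η * η ^ (n - 1) := by
    rw [← pow_succ']; congr 1; omega
  have hη1M : η1 < M := by
    refine lt_of_pow_lt_pow_left₀ n hMpos.le ?_
    rw [hη1, hMn]
    exact mul_lt_mul_of_pos_right hlt (by positivity)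
  have hηη1 : η ≤ η1 := by
    refine le_of_pow_le_pow_left₀ hn.ne' hη10 ?_
    rw [hη1, hηn]
    have h1 : η ≤ C * η := by nlinarith
    have h2 : η ^ (n - 1) ≤ M ^ (n - 1) := pow_le_pow_left₀ hη.le hηM _
    exact mul_le_mul h1 h2 (by positivity) (by positivity)
  have hc' : ∀ P, ∃ i, ‖G P - c i‖ ≤ η1 := by
    intro P
    obtain ⟨i, hi⟩ := hc P
    refine ⟨i, ?_⟩
    rw [← hη1] at hi
    exact le_of_pow_le_pow_left₀ hn.ne' hη10 hi
  -- a gap in the values
  obtain ⟨δ, hδ, hgap⟩ : ∃ δ : ℝ, η1 < δ ∧ ∀ P, ‖G P‖ ≤ η1 ∨ δ ≤ ‖G P‖ := by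
    set S : Finset (Fin n) := Finset.univ.filter fun i => η1 < ‖c i‖ with hS
    by_cases hne : S.Nonempty
    · obtain ⟨j, hj, hmin⟩ := Finset.exists_min_image S (fun i => ‖c i‖) hne
      have hj' : η1 < ‖c j‖ := by
        rw [hS, Finset.mem_filter] at hj; exact hj.2
      refine ⟨‖c j‖, hj', fun P => ?_⟩
      obtain ⟨i, hi⟩ := hc' P
      by_cases h1 : ‖c i‖ ≤ η1
      · exact Or.inl (LZE_add hi h1)
      · right
        rw [LZE_eq hi (not_le.1 h1)]
        exact hmin i (by rw [hS, Finset.mem_filter]; exact ⟨Finset.mem_univ _, not_le.1 h1⟩)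
    · refine ⟨η1 + 1, by linarith, fun P => ?_⟩
      obtain ⟨i, hi⟩ := hc' P
      left
      refine LZE_add hi ?_
      by_contra h1
      exact hne ⟨i, by rw [hS, Finset.mem_filter]; exact ⟨Finset.mem_univ _, not_le.1 h1⟩⟩
  obtain ⟨π, hπ1, hπ2⟩ := exists_norm_between (K := K) hη10 hδ
  have hπ0 : π ≠ 0 := by
    rintro rfl; rw [norm_zero] at hπ1; linarith
  obtain ⟨N, T, g, hT, hg⟩ := hG
  have hT' : ∀ P, ∃ i, P ∈ Dom K (T i) := fun P => hT P (Set.mem_univ _)
  have hg' : ∀ i, ∀ P ∈ Dom K (T i), g i ∈ P.ring ∧ ‖G P - P.val (g i)‖ ≤ η :=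
    fun i P hP => hg i P (Set.mem_univ _) hP
  obtain ⟨ϖ, hϖ⟩ := NormedField.exists_one_lt_norm K
  let a : K → Ω := algebraMap K Ω
  let U : Fin N × Bool → Finset Ω := fun x =>
    if x.2 then insert (g x.1 * a π⁻¹) (T x.1)
    else insert (if g x.1 = 0 then a ϖ else a π * (g x.1)⁻¹) (T x.1)
  let cc : Fin N × Bool → K := fun x => if x.2 then 1 else 0
  let h : Place K Ω → K := fun P => if ‖G P‖ ≤ η1 then 1 else 0
  have hcov : ∀ P : Place K Ω, ∃ x, P ∈ Dom K (U x) := by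
    intro P
    obtain ⟨i, hi⟩ := hT' P
    obtain ⟨hgi, hgP⟩ := hg' i P hi
    rcases hgap P with h1 | h1
    · refine ⟨(i, true), ?_⟩
      show P ∈ Dom K (insert (g i * a π⁻¹) (T i))
      intro t ht
      rw [Finset.mem_insert] at ht
      rcases ht with rfl | ht
      · refine ⟨P.ring.mul_mem _ _ hgi (P.alg_mem _), ?_⟩
        rw [P.val_mul hgi (P.alg_mem _), P.val_algebraMap, norm_mul, norm_inv]
        have h2 : ‖P.val (g i)‖ ≤ η1 := by
          rw [norm_sub_rev] at hgP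
          exact LZE_add (hgP.trans hηη1) h1
        have h3 : 0 < ‖π‖ := norm_pos_iff.2 hπ0
        rw [mul_inv_le_iff₀ h3]
        linarith
      · exact hi t ht
    · refine ⟨(i, false), ?_⟩
      show P ∈ Dom K (insert (if g i = 0 then a ϖ else a π * (g i)⁻¹) (T i))
      have h2 : ‖P.val (g i)‖ = ‖G P‖ := by
        rw [norm_sub_rev] at hgP
        exact LZE_eq hgP (by linarith)
      have h4 : P.val (g i) ≠ 0 := by
        intro h5
        rw [h5, norm_zero] at h2
        linarith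
      have h5 : g i ≠ 0 := by
        intro h6
        rw [h6, P.val_zero] at h4
        exact h4 rfl
      rw [if_neg h5]
      intro t ht
      rw [Finset.mem_insert] at ht
      rcases ht with rfl | ht
      · have h6 := P.inv_mem_of_val hgi h4
        refine ⟨P.ring.mul_mem _ _ (P.alg_mem _) h6, ?_⟩
        rw [P.val_mul (P.alg_mem _) h6, P.val_algebraMap, P.val_inv hgi h4, norm_mul, norm_inv]
        have h3 : 0 < ‖P.val (g i)‖ := norm_pos_iff.2 h4
        rw [mul_inv_le_iff₀ h3]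
        linarith
      · exact hi t ht
  have hval : ∀ x, ∀ P ∈ Dom K (U x), h P = cc x := by
    rintro ⟨i, β⟩ P hP
    cases β with
    | true =>
      have hP' : P ∈ Dom K (insert (g i * a π⁻¹) (T i)) := hP
      have hi : P ∈ Dom K (T i) := fun t ht => hP' t (Finset.mem_insert_of_mem ht)
      obtain ⟨hgi, hgP⟩ := hg' i P hi
      obtain ⟨-, h1⟩ := hP' _ (Finset.mem_insert_self _ _)
      rw [P.val_mul hgi (P.alg_mem _), P.val_algebraMap, norm_mul, norm_inv,
        mul_inv_le_iff₀ (norm_pos_iff.2 hπ0), one_mul] at h1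
      have h2 : ‖G P‖ ≤ ‖π‖ := LZE_add (hgP.trans (hηη1.trans hπ1.le)) h1
      have h3 : ‖G P‖ ≤ η1 := by
        rcases hgap P with h4 | h4
        · exact h4
        · linarith
      show (if ‖G P‖ ≤ η1 then (1 : K) else 0) = if true = true then 1 else 0
      rw [if_pos h3, if_pos rfl]
    | false =>
      have hP' : P ∈ Dom K (insert (if g i = 0 then a ϖ else a π * (g i)⁻¹) (T i)) := hP
      have hi : P ∈ Dom K (T i) := fun t ht => hP' t (Finset.mem_insert_of_mem ht)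
      obtain ⟨hgi, hgP⟩ := hg' i P hi
      obtain ⟨h0, h1⟩ := hP' _ (Finset.mem_insert_self _ _)
      by_cases h5 : g i = 0
      · rw [if_pos h5, P.val_algebraMap] at h1
        linarith
      · rw [if_neg h5] at h0 h1
        have h6 : P.val (a π * (g i)⁻¹) * P.val (g i) = π := by
          rw [← P.val_mul h0 hgi, mul_assoc, inv_mul_cancel₀ h5, mul_one, P.val_algebraMap]
        have h7 : ‖π‖ ≤ ‖P.val (g i)‖ := by
          rw [← h6, norm_mul]
          calc _ ≤ 1 * ‖P.val (g i)‖ := by gcongr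
            _ = _ := one_mul _
        have h8 : ‖G P‖ = ‖P.val (g i)‖ := LZE_eq hgP (by linarith)
        show (if ‖G P‖ ≤ η1 then (1 : K) else 0) = if false = true then 1 else 0
        rw [if_neg (by rw [h8]; linarith), if_neg (by simp)]
  have hcon : ∀ P P' : Place K Ω, h P = h P' := by
    let e := (Fintype.equivFin (Fin N × Bool)).symm
    refine hCon K Ω p hp hp1 (Fintype.card (Fin N × Bool)) (fun i => U (e i)) h
      (fun i => cc (e i)) ?_ ?_
    · intro P
      obtain ⟨x, hx⟩ := hcov P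
      refine ⟨e.symm x, ?_⟩
      rwa [Equiv.apply_symm_apply]
    · intro i P hP
      exact hval (e i) P hP
  have hle : M ≤ η1 := by
    refine csSup_le ⟨_, ⟨Q, rfl⟩⟩ ?_
    rintro _ ⟨P, rfl⟩
    show ‖G P‖ ≤ η1
    by_contra hcontra
    have h1 := hcon P Q
    have h2 : (if ‖G P‖ ≤ η1 then (1 : K) else 0) = if ‖G Q‖ ≤ η1 then 1 else 0 := h1
    rw [if_neg hcontra, if_pos (hQ.trans hηη1)] at h2
    exact zero_ne_one h2
  linarith

end PUC
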