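import Pool.Agent.H77.PUC.StmtsE

/-!
# TRD: trace descent
-/

universe u

namespace PUC

open Polynomial Filter Topology Metric

theorem TRD_alg {K Ω : Type u} [Field K] [Field Ω] [Algebra K Ω]
    [Algebra (RatFunc K) Ω] [IsScalarTower K (RatFunc K) Ω] (Q : K[X]) :
    algebraMap (RatFunc K) Ω (algebraMap K[X] (RatFunc K) Q) = aeval (zz K Ω) Q := by
  have h : ((IsScalarTower.toAlgHom K (RatFunc K) Ω).comp
      (IsScalarTower.toAlgHom K K[X] (RatFunc K))) = aeval (zz K Ω) := by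
    apply Polynomial.algHom_ext
    rw [aeval_X]
    simp [zz, RatFunc.algebraMap_X]
  have h2 := congrArg (fun φ => φ Q) h
  simpa using h2

theorem TRD_zz {K Ω : Type u} [Field K] [Field Ω] [Algebra K Ω]
    [Algebra (RatFunc K) Ω] [IsScalarTower K (RatFunc K) Ω] (σ : Ω ≃ₐ[RatFunc K] Ω) :
    σ (zz K Ω) = zz K Ω := by
  unfold zz
  exact σ.commutes _

theorem TRD_one {K Ω : Type u} [Field K] [Field Ω] [Algebra K Ω]
    [Algebra (RatFunc K) Ω] [IsScalarTower K (RatFunc K) Ω] (P : Place K Ω) :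
    P.gact (1 : Ω ≃ₐ[RatFunc K] Ω) = P := by
  apply Place.ext'
  ext f
  rw [Place.mem_gact]
  rfl

theorem sTrd (hBas : SBas.{u}) (hLft : SLft.{u}) (hPon : SPon.{u}) (hPpo : SPpo.{u})
    (hFcs : SFcs.{u}) (hFcm : SFcm.{u}) (hZpl : SZpl.{u}) (hZer : SZer.{u}) : STrd.{u} := by
  intro K Ω _ _ _ _ _ _ _ _ _ _ _ p hp hp1 F' _ _ X κ m hX hXan hXb
  obtain ⟨n, b, κ', m', B, hb1, hb2, hb3⟩ := hBas K Ω F'
  obtain ⟨lft, hl1, hl2, hl3⟩ := hLft K Ω F'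
  obtain ⟨hz1, hz2, hz3⟩ := hZpl K Ω
  choose Pz hPz1 hPz2 using hz1
  -- the functions R i
  let Rf : Fin n → Place K Ω → K := fun i P =>
    ∑ γ : F' ≃ₐ[RatFunc K] F', X (P.gact (lft γ)) * P.val ((γ (b i) : F') : Ω)
  have hRf : ∀ i P, Rf i P =
    ∑ γ : F' ≃ₐ[RatFunc K] F', X (P.gact (lft γ)) * P.val ((γ (b i) : F') : Ω) := fun i P => rfl
  have hinv : ∀ i P (τ : Ω ≃ₐ[RatFunc K] Ω), Rf i (P.gact τ) = Rf i P := by
    intro i P τ
    obtain ⟨e, he⟩ := hl3 τ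
    rw [hRf, hRf, ← Equiv.sum_comp e
      (fun γ => X (P.gact (lft γ)) * P.val ((γ (b i) : F') : Ω))]
    apply Finset.sum_congr rfl
    intro γ _
    have h1 := he γ P
    rw [hX _ _ h1]
    congr 1
    have h2 := Agree.val_eq (K := K) (F := F') h1 (b i).2
    rw [Place.val_gact (P := P.gact τ) (σ := lft γ), Place.val_gact (P := P) (σ := lft (e γ)),
      hl2, hl2] at h2
    exact h2
  -- the functions H i
  let Hf : Fin n → K → K := fun i a => Rf i (Pz a)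
  have hHf : ∀ i (P : Place K Ω), zz K Ω ∈ P.ring → Rf i P = Hf i (P.val (zz K Ω)) := by
    intro i P hP
    have hs : SameVal (zz K Ω) (Pz (P.val (zz K Ω))) P := by
      refine ⟨?_, hPz2 _⟩
      constructor
      · intro _; exact hP
      · intro _; exact hPz1 _
    obtain ⟨σ, hσ⟩ := hz3 _ _ hs
    show Rf i P = Rf i (Pz (P.val (zz K Ω)))
    rw [← hinv i (Pz (P.val (zz K Ω))) σ, ← hσ]
  -- growth
  have hκ'0 : ∀ P : Place K Ω, zz K Ω ∈ P.ring → ∀ i (γ : F' ≃ₐ[RatFunc K] F'),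
      ‖P.val ((γ (b i) : F') : Ω)‖ ≤ |κ'| * max 1 ‖P.val (zz K Ω)‖ ^ m' := by
    intro P hP i γ
    refine (hb1 P hP i γ).2.trans ?_
    gcongr
    exact le_abs_self _
  have hX0 : ∀ P : Place K Ω, zz K Ω ∈ P.ring → ‖X P‖ ≤ |κ| * max 1 ‖P.val (zz K Ω)‖ ^ m := by
    intro P hP
    refine (hXb P hP).trans ?_
    gcongr
    exact le_abs_self _
  have hgr : ∀ i a, ‖Hf i a‖ ≤ (|κ| * |κ'|) * max 1 ‖a‖ ^ (m + m') := by
    intro i a
    show ‖Rf i (Pz a)‖ ≤ _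
    rw [hRf]
    apply IsUltrametricDist.norm_sum_le_of_forall_le_of_nonneg
    · positivity
    · intro γ _
      rw [norm_mul, pow_add]
      have h1 : zz K Ω ∈ ((Pz a).gact (lft γ)).ring := by
        rw [Place.mem_gact, TRD_zz]; exact hPz1 a
      have h2 := hX0 _ h1
      rw [Place.val_gact, TRD_zz, hPz2] at h2
      have h3 := hκ'0 (Pz a) (hPz1 a) i γ
      rw [hPz2] at h3
      calc _ ≤ (|κ| * max 1 ‖a‖ ^ m) * (|κ'| * max 1 ‖a‖ ^ m') := by gcongr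
        _ = _ := by ring
  -- approximability
  have hdisc : ∀ (c : K) (σ : Ω ≃ₐ[RatFunc K] Ω) (P : Place K Ω),
      P ∈ (Disc 0 c : Set (Place K Ω)) ↔ P.gact σ ∈ (Disc 0 c : Set (Place K Ω)) := by
    intro c σ P
    show (zz K Ω ∈ P.ring ∧ ‖P.val (zz K Ω) - 0‖ ≤ ‖c‖) ↔
      (zz K Ω ∈ (P.gact σ).ring ∧ ‖(P.gact σ).val (zz K Ω) - 0‖ ≤ ‖c‖)
    rw [Place.mem_gact, Place.val_gact, TRD_zz]
  have hfc : ∀ i (c : K), c ≠ 0 → ∀ ε : ℝ, 0 < ε → FCon (Disc 0 c) ε (Rf i) := by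
    intro i c hc ε hε
    refine (hFcs K Ω (Disc 0 c) ε hε.le).2.2.2.1 (F' ≃ₐ[RatFunc K] F')
      (fun γ P => X (P.gact (lft γ)) * P.val ((γ (b i) : F') : Ω)) ?_
    intro γ
    set M : ℝ := |κ'| * max 1 ‖c‖ ^ m' + 1 with hM
    have hM0 : 0 < M := by positivity
    have h1 : FCon (Disc 0 c) (ε / M) (fun P => X (P.gact (lft γ))) :=
      (hFcs K Ω (Disc 0 c) (ε / M) (by positivity)).2.2.2.2 X (lft γ)
        (fun P => hdisc c (lft γ) P) (hXan c hc (ε / M) (by positivity))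
    have h2 := hFcm K Ω (Disc 0 c) (ε / M) M (by positivity) hM0
      (fun P => X (P.gact (lft γ))) ((γ (b i) : F') : Ω) h1 (by
        intro P hP
        refine ⟨(hb1 P hP.1 i γ).1, (hκ'0 P hP.1 i γ).trans ?_⟩
        have h3 : ‖P.val (zz K Ω)‖ ≤ ‖c‖ := by simpa using hP.2
        have h4 : max 1 ‖P.val (zz K Ω)‖ ≤ max 1 ‖c‖ := max_le_max le_rfl h3
        have h5 : |κ'| * max 1 ‖P.val (zz K Ω)‖ ^ m' ≤ |κ'| * max 1 ‖c‖ ^ m' := by gcongr
        linarith)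
    have e : M * (ε / M) = ε := by field_simp
    rwa [e] at h2
  -- polynomials
  have hp0 : 0 < ‖(p : K)‖ := norm_pos_iff.2 (Nat.cast_ne_zero.2 hp.ne_zero)
  have hpoly : ∀ i, ∃ Q : K[X], ∀ a, Hf i a = Q.eval a := by
    intro i
    refine hPpo K (Hf i) (|κ| * |κ'|) (m + m') ?_ (hgr i)
    intro R ε hR hε
    obtain ⟨c, hc⟩ := NormedField.exists_lt_norm K R
    have hc0 : c ≠ 0 := by rintro rfl; rw [norm_zero] at hc; linarith
    have hη : 0 < ‖(p : K)‖ ^ 3 * ε := by positivity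
    have h1 := hPon K Ω p hp hp1 0 c (‖(p : K)‖ ^ 3 * ε) (Hf i)
      ⟨hc0, hη, Rf i, fun P hP => hHf i P hP.1, hfc i c hc0 _ hη⟩ R hR hc
    have e : ‖(p : K)‖⁻¹ ^ 3 * (‖(p : K)‖ ^ 3 * ε) = ε := by
      field_simp
    rwa [e] at h1
  choose Q hQ using hpoly
  obtain ⟨f, hf⟩ := hb2 (fun i => algebraMap K[X] (RatFunc K) (Q i))
  have hBγ : ∃ B2 : Finset K, ∀ P : Place K Ω, zz K Ω ∈ P.ring → P.val (zz K Ω) ∉ B2 →
      ∀ γ : F' ≃ₐ[RatFunc K] F', ((γ f : F') : Ω) ∈ P.ring := by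
    classical
    have h1 : ∀ γ : F' ≃ₐ[RatFunc K] F', ∃ B2 : Finset K, ∀ P : Place K Ω, zz K Ω ∈ P.ring →
        P.val (zz K Ω) ∉ B2 → ((γ f : F') : Ω) ∈ P.ring := by
      intro γ
      by_cases h0 : ((γ f : F') : Ω) = 0
      · refine ⟨∅, fun P _ _ => ?_⟩
        rw [h0]; exact P.ring.zero_mem
      · obtain ⟨B2, hB2⟩ := hZer K Ω _ h0
        exact ⟨B2, fun P h1 h2 => (hB2 P h1 h2).1⟩
    choose Bf hBf using h1
    refine ⟨Finset.univ.biUnion Bf, fun P h1 h2 γ => hBf γ P h1 fun h3 => h2 ?_⟩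
    rw [Finset.mem_biUnion]
    exact ⟨γ, Finset.mem_univ _, h3⟩
  obtain ⟨B2, hB2⟩ := hBγ
  classical
  refine ⟨(f : Ω), f.2, B ∪ B2, fun P hP1 hP2 => ?_⟩
  rw [Finset.mem_union, not_or] at hP2
  have hγf := hB2 P hP1 hP2.2
  have hmain := hb3 P hP1 hP2.1 (fun γ => P.val ((γ f : F') : Ω) - X (P.gact (lft γ))) (by
    intro i
    have h1 := congrArg (fun q : F' => P.val (q : Ω)) (hf i)
    have e1 : ((algebraMap (RatFunc K) F' (algebraMap K[X] (RatFunc K) (Q i)) : F') : Ω) =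
        aeval (zz K Ω) (Q i) := by
      rw [← TRD_alg]; rfl
    have e2 : ((∑ γ : F' ≃ₐ[RatFunc K] F', γ f * γ (b i) : F') : Ω) =
        ∑ γ : F' ≃ₐ[RatFunc K] F', ((γ f : F') : Ω) * ((γ (b i) : F') : Ω) := by
      push_cast
      rfl
    rw [e1, e2, P.val_aeval hP1, P.val_sum] at h1
    · have h2 : (Q i).eval (P.val (zz K Ω)) = Rf i P := by
        rw [hHf i P hP1, hQ]
      rw [h2, hRf] at h1
      rw [← sub_eq_zero, ← Finset.sum_sub_distrib] at h1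
      rw [← h1]
      apply Finset.sum_congr rfl
      intro γ _
      rw [P.val_mul (hγf γ) (hb1 P hP1 i γ).1]
      ring
    · intro γ _
      exact P.ring.mul_mem _ _ (hγf γ) (hb1 P hP1 i γ).1)
  have h1 := hmain 1
  rw [hl1, TRD_one, sub_eq_zero] at h1
  exact ⟨hγf 1, h1⟩

end PUC
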